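import Pool.Agent.Q175.HR.Main

/-! The two sides of the inequality. -/

set_option autoImplicit false

open MeasureTheory InnerProductSpace Filter Topology Set Laplacian
open scoped ENNReal

namespace Pool.Agent.Q175.HR

variable {N : ℕ} {R : ℝ}

def ann (N : ℕ) (r1 r2 : ℝ) : Set (E N) := {x | r1 ≤ ‖x‖ ∧ ‖x‖ ≤ r2}

lemma ann_meas (r1 r2 : ℝ) : MeasurableSet (ann N r1 r2) :=
  ((isClosed_le continuous_const continuous_norm).inter
    (isClosed_le continuous_norm continuous_const)).measurableSet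

lemma ann_lint (hN : 1 ≤ N) {r1 r2 : ℝ} (h1 : 0 < r1) (h2 : r1 ≤ r2) :
    ∫⁻ x in ann N r1 r2, ENNReal.ofReal ((‖x‖ ^ N)⁻¹) =
      ENNReal.ofReal (N * volume.real (Metric.ball (0 : E N) 1) * Real.log (r2 / r1)) := by
  have : Nonempty (Fin N) := ⟨⟨0, hN⟩⟩
  set f : ℝ → ℝ := (Icc r1 r2).indicator fun r => (r ^ N)⁻¹ with hf
  have hf0 : ∀ r, 0 ≤ f r := by
    intro r
    rw [hf]
    apply indicator_nonneg
    intro y hy
    have : 0 < y := lt_of_lt_of_le h1 hy.1
    positivity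
  have haux : ∀ y ∈ Ioi (0:ℝ), y ^ (N - 1) • f y = (Icc r1 r2).indicator (fun r => r⁻¹) y := by
    intro y hy
    have hy' : 0 < y := hy
    rw [hf]
    unfold indicator
    split_ifs with h
    · obtain ⟨k, rfl⟩ : ∃ k, N = k + 1 := ⟨N - 1, by omega⟩
      simp only [Nat.add_sub_cancel, smul_eq_mul]
      rw [pow_succ]
      field_simp
    · simp
  have hint1 : Integrable ((Icc r1 r2).indicator (fun r : ℝ => r⁻¹)) := by
    rw [integrable_indicator_iff measurableSet_Icc]
    apply ContinuousOn.integrableOn_Icc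
    apply continuousOn_id.inv₀
    intro x hx
    change x ≠ 0
    exact (lt_of_lt_of_le h1 hx.1).ne'
  have hint : Integrable (fun x : E N => f ‖x‖) := by
    rw [integrable_fun_norm_addHaar volume (f := f), finrank_euclideanSpace_fin]
    exact hint1.integrableOn.congr_fun (fun y hy => (haux y hy).symm) measurableSet_Ioi
  have hval : ∫ x : E N, f ‖x‖ = N * volume.real (Metric.ball (0 : E N) 1) * Real.log (r2 / r1) := by
    rw [integral_fun_norm_addHaar volume f, finrank_euclideanSpace_fin,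
      setIntegral_congr_fun measurableSet_Ioi haux, setIntegral_indicator measurableSet_Icc]
    have h3 : Ioi (0:ℝ) ∩ Icc r1 r2 = Icc r1 r2 := by
      apply inter_eq_right.mpr
      intro x hx
      exact lt_of_lt_of_le h1 hx.1
    rw [h3, integral_Icc_eq_integral_Ioc, ← intervalIntegral.integral_of_le h2,
      integral_inv_of_pos h1 (lt_of_lt_of_le h1 h2)]
    simp only [nsmul_eq_mul, smul_eq_mul]
    ring
  rw [← hval, ofReal_integral_eq_lintegral_ofReal hint (Eventually.of_forall fun x => hf0 _),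
    ← lintegral_indicator (ann_meas r1 r2)]
  refine lintegral_congr fun x => ?_
  rw [hf]
  unfold indicator
  by_cases hx : x ∈ ann N r1 r2
  · have hx' : ‖x‖ ∈ Icc r1 r2 := hx
    rw [if_pos hx, if_pos hx']
  · have hx' : ‖x‖ ∉ Icc r1 r2 := hx
    rw [if_neg hx, if_neg hx']
    simp

lemma tau_mem {a r τ : ℝ} (ha : 0 < a) (hR : 0 < R) (hr : 0 < r) :
    (a * Real.log (R / r) ≤ τ ↔ R * Real.exp (-(τ / a)) ≤ r) ∧
      (τ ≤ a * Real.log (R / r) ↔ r ≤ R * Real.exp (-(τ / a))) := by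
  have e : R * Real.exp (-(τ / a)) = R / Real.exp (τ / a) := by
    rw [Real.exp_neg]; rfl
  have hpos := Real.exp_pos (τ / a)
  constructor
  · rw [e, div_le_iff₀ hpos, mul_comm a, ← le_div_iff₀ ha, Real.log_le_iff_le_exp (by positivity),
      div_le_iff₀ hr, mul_comm r]
  · rw [e, le_div_iff₀ hpos, mul_comm a, ← div_le_iff₀ ha, Real.le_log_iff_exp_le (by positivity),
      le_div_iff₀ hr, mul_comm r]

/-- upper bound of the right side -/
lemma rhs (hN : 2 < N) (hR : 0 < R) :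
    ∫⁻ x : E N, ENNReal.ofReal (|Δ (uu N R) x| ^ ((N:ℝ) / 2)) ≤
      ENNReal.ofReal (((N:ℝ) - 2) ^ N * (N * volume.real (Metric.ball (0 : E N) 1) *
        ((333 / 20 - 1 / 100) / (N - 2)))) := by
  have ha : (0:ℝ) < N - 2 := by
    have : (2:ℝ) < N := by exact_mod_cast hN
    linarith
  have hN0 : (0:ℝ) < N := by linarith
  set a : ℝ := (N:ℝ) - 2 with hadef
  set r1 := R * Real.exp (-(333 / 20 / a)) with hr1
  set r2 := R * Real.exp (-(1 / 100 / a)) with hr2
  have h1 : 0 < r1 := by positivity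
  have h2 : r1 ≤ r2 := by
    apply mul_le_mul_of_nonneg_left _ hR.le
    apply Real.exp_le_exp.mpr
    have : 1 / 100 / a ≤ 333 / 20 / a := div_le_div_of_nonneg_right (by norm_num) ha.le
    linarith
  have hlog : Real.log (r2 / r1) = (333 / 20 - 1 / 100) / a := by
    rw [hr1, hr2, mul_div_mul_left _ _ hR.ne', ← Real.exp_sub, Real.log_exp]
    ring
  have hne0 : ∀ᵐ x : E N, x ≠ 0 := by
    have : Nonempty (Fin N) := ⟨⟨0, by omega⟩⟩
    have h0 : volume ({0} : Set (E N)) = 0 := measure_singleton _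
    filter_upwards [compl_mem_ae_iff.mpr h0] with x hx
    exact hx
  calc ∫⁻ x : E N, ENNReal.ofReal (|Δ (uu N R) x| ^ ((N:ℝ) / 2))
      ≤ ∫⁻ x in ann N r1 r2, ENNReal.ofReal (a ^ N) * ENNReal.ofReal ((‖x‖ ^ N)⁻¹) := by
        rw [← lintegral_indicator (ann_meas r1 r2)]
        apply lintegral_mono_ae
        filter_upwards [hne0] with x hx
        have hp : 0 < ‖x‖ := norm_pos_iff.mpr hx
        unfold indicator
        split_ifs with hm
        · change _ ≤ ENNReal.ofReal (a ^ N) * ENNReal.ofReal ((‖x‖ ^ N)⁻¹)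
          rw [← ENNReal.ofReal_mul (by positivity)]
          apply ENNReal.ofReal_le_ofReal
          have h3 : |Δ (uu N R) x| ≤ (a / ‖x‖) ^ 2 := by
            rw [lap_uu hR hx, abs_mul, abs_of_nonneg (by positivity), div_pow]
            have := w_bound (((N:ℝ) - 2) * Real.log (R / ‖x‖))
            calc ((N:ℝ) - 2) ^ 2 / ‖x‖ ^ 2 * |_| ≤ ((N:ℝ) - 2) ^ 2 / ‖x‖ ^ 2 * 1 :=
                  mul_le_mul_of_nonneg_left this (by positivity)
              _ = _ := by rw [mul_one]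
          calc |Δ (uu N R) x| ^ ((N:ℝ) / 2) ≤ ((a / ‖x‖) ^ 2) ^ ((N:ℝ) / 2) :=
                Real.rpow_le_rpow (abs_nonneg _) h3 (by positivity)
            _ = (a / ‖x‖) ^ N := by
                rw [← Real.rpow_natCast (a / ‖x‖) 2, ← Real.rpow_mul (by positivity), ← Real.rpow_natCast (a / ‖x‖) N]
                congr 1
                push_cast
                ring
            _ = a ^ N * (‖x‖ ^ N)⁻¹ := by rw [div_pow]; rfl
        · have hz : Δ (uu N R) x = 0 := by
            rw [lap_uu hR hx]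
            have : ¬ (r1 ≤ ‖x‖ ∧ ‖x‖ ≤ r2) := hm
            rw [not_and_or] at this
            rcases this with h | h
            · rw [not_le] at h
              have h4 : 333 / 20 ≤ ((N:ℝ) - 2) * Real.log (R / ‖x‖) := (tau_mem ha hR hp).2.mpr h.le
              rw [φ1_late h4, φ2_late h4]
              ring
            · rw [not_le] at h
              have h4 : ((N:ℝ) - 2) * Real.log (R / ‖x‖) ≤ 1 / 100 := (tau_mem ha hR hp).1.mpr h.le
              rw [φ1_zero h4, φ2_zero h4]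
              ring
          rw [hz, abs_zero, Real.zero_rpow (by positivity)]
          simp
    _ = ENNReal.ofReal (a ^ N) * ENNReal.ofReal (N * volume.real (Metric.ball (0 : E N) 1) *
          ((333 / 20 - 1 / 100) / a)) := by
        rw [lintegral_const_mul' _ _ ENNReal.ofReal_ne_top, ann_lint (by omega) h1 h2, hlog]
    _ = _ := by rw [← ENNReal.ofReal_mul (by positivity)]

/-- lower bound of the left side -/
lemma lhs (hN : 2 < N) (hR : 0 < R) :
    ENNReal.ofReal ((53 / 100) ^ ((N:ℝ) / 2) * (((N:ℝ) - 2) ^ N * (N * volume.real (Metric.ball (0 : E N) 1) *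
        ((1 / 20) / (N - 2))))) ≤
    ∫⁻ x in Metric.ball (0 : E N) R, ENNReal.ofReal (|uu N R x| ^ ((N:ℝ) / 2) /
      (‖x‖ ^ N * Real.log (R / ‖x‖) ^ N)) := by
  have ha : (0:ℝ) < N - 2 := by
    have : (2:ℝ) < N := by exact_mod_cast hN
    linarith
  have hN0 : (0:ℝ) < N := by linarith
  set a : ℝ := (N:ℝ) - 2 with hadef
  set r1 := R * Real.exp (-(17 / 20 / a)) with hr1
  set r2 := R * Real.exp (-(4 / 5 / a)) with hr2
  have h1 : 0 < r1 := by positivity
  have h2 : r1 ≤ r2 := by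
    apply mul_le_mul_of_nonneg_left _ hR.le
    apply Real.exp_le_exp.mpr
    have : 4 / 5 / a ≤ 17 / 20 / a := div_le_div_of_nonneg_right (by norm_num) ha.le
    linarith
  have h2R : r2 < R := by
    rw [hr2]
    have : Real.exp (-(4 / 5 / a)) < 1 := by
      rw [Real.exp_lt_one_iff]
      have : 0 < 4 / 5 / a := by positivity
      linarith
    nlinarith
  have hlog : Real.log (r2 / r1) = (1 / 20) / a := by
    rw [hr1, hr2, mul_div_mul_left _ _ hR.ne', ← Real.exp_sub, Real.log_exp]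
    ring
  have hsub : ann N r1 r2 ⊆ Metric.ball (0 : E N) R := by
    intro x hx
    rw [mem_ball_zero_iff]
    exact lt_of_le_of_lt hx.2 h2R
  calc _ = ENNReal.ofReal ((53 / 100) ^ ((N:ℝ) / 2) * a ^ N) *
        ENNReal.ofReal (N * volume.real (Metric.ball (0 : E N) 1) * ((1 / 20) / a)) := by
        rw [← ENNReal.ofReal_mul (by positivity)]
        congr 1
        ring
    _ = ∫⁻ x in ann N r1 r2, ENNReal.ofReal ((53 / 100) ^ ((N:ℝ) / 2) * a ^ N) * ENNReal.ofReal ((‖x‖ ^ N)⁻¹) := by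
        rw [lintegral_const_mul' _ _ ENNReal.ofReal_ne_top, ann_lint (by omega) h1 h2, hlog]
    _ ≤ ∫⁻ x in ann N r1 r2, ENNReal.ofReal (|uu N R x| ^ ((N:ℝ) / 2) /
          (‖x‖ ^ N * Real.log (R / ‖x‖) ^ N)) := by
        apply setLIntegral_mono' (ann_meas r1 r2)
        intro x hx
        have hp : 0 < ‖x‖ := lt_of_lt_of_le h1 hx.1
        have hx0 : x ≠ 0 := norm_pos_iff.mp hp
        rw [← ENNReal.ofReal_mul (by positivity)]
        apply ENNReal.ofReal_le_ofReal
        set τ := a * Real.log (R / ‖x‖) with hτ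
        have h3 : 4 / 5 ≤ τ := (tau_mem ha hR hp).2.mpr hx.2
        have h4 : τ ≤ 17 / 20 := (tau_mem ha hR hp).1.mpr hx.1
        have h5 : 53 / 100 * τ ^ 2 ≤ |uu N R x| := by
          rw [uu_eq' hR hx0]
          exact (φ_window h3 h4).trans (le_abs_self _)
        have hτ0 : 0 < τ := by linarith
        have h6 : (53 / 100) ^ ((N:ℝ) / 2) * τ ^ N ≤ |uu N R x| ^ ((N:ℝ) / 2) := by
          calc (53 / 100) ^ ((N:ℝ) / 2) * τ ^ N = (53 / 100 * τ ^ 2) ^ ((N:ℝ) / 2) := by
                rw [Real.mul_rpow (by norm_num) (by positivity), ← Real.rpow_natCast τ 2,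
                  ← Real.rpow_mul hτ0.le, ← Real.rpow_natCast τ N]
                congr 2
                push_cast
                ring
            _ ≤ _ := Real.rpow_le_rpow (by positivity) h5 (by positivity)
        have h7 : Real.log (R / ‖x‖) = τ / a := by rw [hτ]; field_simp
        rw [h7, le_div_iff₀ (by positivity), div_pow]
        calc (53 / 100) ^ ((N:ℝ) / 2) * a ^ N * (‖x‖ ^ N)⁻¹ * (‖x‖ ^ N * (τ ^ N / a ^ N))
            = (53 / 100) ^ ((N:ℝ) / 2) * τ ^ N := by field_simp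
          _ ≤ _ := h6
    _ ≤ _ := lintegral_mono_set hsub

lemma numeric (hN : 400 ≤ N) :
    333 / 20 - 1 / 100 < (((1 * (N:ℝ) - 2) / N) * ((2 * (N:ℝ) - 2) / N)) ^ ((N:ℝ) / 2) *
      (53 / 100) ^ ((N:ℝ) / 2) * (1 / 20) := by
  have hN' : (400:ℝ) ≤ N := by exact_mod_cast hN
  have hN0 : (0:ℝ) < N := by linarith
  have h1 : 105 / 100 ≤ (((1 * (N:ℝ) - 2) / N) * ((2 * (N:ℝ) - 2) / N)) * (53 / 100) := by
    have : ((1 * (N:ℝ) - 2) / N) * ((2 * (N:ℝ) - 2) / N) = 2 - 6 / N + 4 / N ^ 2 := by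
      field_simp
      ring
    rw [this]
    have h2 : 6 / (N:ℝ) ≤ 6 / 400 := by gcongr
    have h3 : 0 ≤ 4 / (N:ℝ) ^ 2 := by positivity
    linarith
  have h0 : 0 ≤ ((1 * (N:ℝ) - 2) / N) * ((2 * (N:ℝ) - 2) / N) :=
    mul_nonneg (div_nonneg (by linarith) hN0.le) (div_nonneg (by linarith) hN0.le)
  rw [← Real.mul_rpow h0 (by norm_num)]
  have h2 : (105 / 100 : ℝ) ^ (200:ℕ) ≤
      ((((1 * (N:ℝ) - 2) / N) * ((2 * (N:ℝ) - 2) / N)) * (53 / 100)) ^ ((N:ℝ) / 2) := by
    calc (105 / 100 : ℝ) ^ (200:ℕ) = (105 / 100 : ℝ) ^ ((200:ℕ):ℝ) := (Real.rpow_natCast _ _).symm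
      _ ≤ (105 / 100 : ℝ) ^ ((N:ℝ) / 2) :=
          Real.rpow_le_rpow_of_exponent_le (by norm_num) (by push_cast; linarith)
      _ ≤ _ := Real.rpow_le_rpow (by norm_num) h1 (by positivity)
  have h3 : (333:ℝ) < (105 / 100 : ℝ) ^ (200:ℕ) := by norm_num
  linarith

theorem main (hN : 400 ≤ N) (hR : 0 < R) :
    ∫⁻ x in Metric.ball (0 : E N) R, ENNReal.ofReal (|Δ (uu N R) x| ^ ((N:ℝ) / 2)) <
      ENNReal.ofReal ((((1 * (N:ℝ) - 2) / N) * ((2 * (N:ℝ) - 2) / N)) ^ ((N:ℝ) / 2)) *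
      ∫⁻ x in Metric.ball (0 : E N) R, ENNReal.ofReal (|uu N R x| ^ ((N:ℝ) / 2) /
      (‖x‖ ^ N * Real.log (R / ‖x‖) ^ N)) := by
  have hN2 : 2 < N := by omega
  have hN' : (400:ℝ) ≤ N := by exact_mod_cast hN
  have ha : (0:ℝ) < N - 2 := by linarith
  have : Nonempty (Fin N) := ⟨⟨0, by omega⟩⟩
  have hω : 0 < volume.real (Metric.ball (0 : E N) 1) :=
    ENNReal.toReal_pos (Metric.measure_ball_pos volume _ one_pos).ne' measure_ball_lt_top.ne
  refine lt_of_le_of_lt (setLIntegral_le_lintegral _ _) (lt_of_le_of_lt (rhs hN2 hR)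
    (lt_of_lt_of_le ?_ (mul_le_mul_right (lhs hN2 hR) _)))
  have hC : 0 ≤ (((1 * (N:ℝ) - 2) / N) * ((2 * (N:ℝ) - 2) / N)) ^ ((N:ℝ) / 2) := by
    apply Real.rpow_nonneg
    exact mul_nonneg (div_nonneg (by linarith) (by linarith)) (div_nonneg (by linarith) (by linarith))
  rw [← ENNReal.ofReal_mul hC]
  apply (ENNReal.ofReal_lt_ofReal_iff ?_).mpr
  · have h := numeric hN
    set C := (((1 * (N:ℝ) - 2) / N) * ((2 * (N:ℝ) - 2) / N)) ^ ((N:ℝ) / 2)
    have h2 : 0 < ((N:ℝ) - 2) ^ N * (N * volume.real (Metric.ball (0 : E N) 1)) / (N - 2) := by positivity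
    calc ((N:ℝ) - 2) ^ N * (N * volume.real (Metric.ball (0 : E N) 1) * ((333 / 20 - 1 / 100) / (N - 2)))
        = (((N:ℝ) - 2) ^ N * (N * volume.real (Metric.ball (0 : E N) 1)) / (N - 2)) * (333 / 20 - 1 / 100) := by ring
      _ < (((N:ℝ) - 2) ^ N * (N * volume.real (Metric.ball (0 : E N) 1)) / (N - 2)) *
          (C * (53 / 100) ^ ((N:ℝ) / 2) * (1 / 20)) := mul_lt_mul_of_pos_left h h2
      _ = _ := by ring
  · have h := numeric hN
    set C := (((1 * (N:ℝ) - 2) / N) * ((2 * (N:ℝ) - 2) / N)) ^ ((N:ℝ) / 2)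
    have hC' : 0 < C := by
      rcases hC.eq_or_lt with h0 | h0
      · rw [← h0] at h; norm_num at h
      · exact h0
    positivity

end Pool.Agent.Q175.HR
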