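import Pool.Agent.Q175.HR.Spline
import Pool.Agent.H314.CS.Dist

/-! A radial counterexample to the critical Rellich inequality with logarithmic weight. -/

set_option autoImplicit false

open MeasureTheory InnerProductSpace Filter Topology Set Laplacian

namespace Pool.Agent.Q175.HR

abbrev E (N : ℕ) : Type := EuclideanSpace ℝ (Fin N)

variable {N : ℕ} {R a : ℝ}

noncomputable def U (a R s : ℝ) : ℝ := φ (a * (Real.log R - 1 / 2 * Real.log s))
noncomputable def U1 (a R s : ℝ) : ℝ := -(a / 2) * s⁻¹ * φ1 (a * (Real.log R - 1 / 2 * Real.log s))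
noncomputable def U2 (a R s : ℝ) : ℝ := (s ^ 2)⁻¹ * (a / 2 * φ1 (a * (Real.log R - 1 / 2 * Real.log s)) +
  a ^ 2 / 4 * φ2 (a * (Real.log R - 1 / 2 * Real.log s)))

lemma inner_der (a R : ℝ) {s : ℝ} (hs : s ≠ 0) :
    HasDerivAt (fun s => a * (Real.log R - 1 / 2 * Real.log s)) (-(a / 2) * s⁻¹) s := by
  have h := (((Real.hasDerivAt_log hs).const_mul (1 / 2)).const_sub (Real.log R)).const_mul a
  refine h.congr_deriv ?_
  ring

lemma U_der (a R : ℝ) {s : ℝ} (hs : s ≠ 0) : HasDerivAt (U a R) (U1 a R s) s := by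
  have h := (φ_der _).comp s (inner_der a R hs)
  refine h.congr_deriv ?_
  unfold U1
  ring

lemma U1_der (a R : ℝ) {s : ℝ} (hs : s ≠ 0) : HasDerivAt (U1 a R) (U2 a R s) s := by
  have h := ((hasDerivAt_inv hs).const_mul (-(a / 2))).mul ((φ1_der _).comp s (inner_der a R hs))
  refine h.congr_deriv ?_
  unfold U2
  simp only [Function.comp_def]
  field_simp
  ring

/-- the function -/
noncomputable def uu (N : ℕ) (R : ℝ) (x : E N) : ℝ :=
  open Classical in if x = 0 then φ (333 / 20) else U (N - 2) R (‖x‖ ^ 2)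

lemma uu_eq {x : E N} (hx : x ≠ 0) : uu N R x = U (N - 2) R (‖x‖ ^ 2) := by
  unfold uu; rw [if_neg hx]

lemma arg_eq (hR : 0 < R) {x : E N} (hx : x ≠ 0) :
    a * (Real.log R - 1 / 2 * Real.log (‖x‖ ^ 2)) = a * Real.log (R / ‖x‖) := by
  have : 0 < ‖x‖ := norm_pos_iff.mpr hx
  rw [Real.log_div hR.ne' this.ne', Real.log_pow]
  push_cast
  ring

lemma uu_eq' (hR : 0 < R) {x : E N} (hx : x ≠ 0) : uu N R x = φ ((N - 2) * Real.log (R / ‖x‖)) := by
  rw [uu_eq hx]
  unfold U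
  rw [arg_eq hR hx]

lemma uu_near (hR : 0 < R) (hN : 2 < N) {x : E N} (hx : ‖x‖ < R * Real.exp (-(333 / 20 / (N - 2)))) :
    uu N R x = φ (333 / 20) := by
  have ha : (0:ℝ) < N - 2 := by
    have : (2:ℝ) < N := by exact_mod_cast hN
    linarith
  by_cases h0 : x = 0
  · unfold uu; rw [if_pos h0]
  · rw [uu_eq' hR h0]
    apply φ_late
    have hp : 0 < ‖x‖ := norm_pos_iff.mpr h0
    have h1 : Real.exp (333 / 20 / (N - 2)) < R / ‖x‖ := by
      rw [lt_div_iff₀ hp]
      rw [Real.exp_neg] at hx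
      have := Real.exp_pos (333 / 20 / ((N:ℝ) - 2))
      rw [← div_eq_mul_inv, lt_div_iff₀ this] at hx
      linarith
    have h2 : 333 / 20 / ((N:ℝ) - 2) < Real.log (R / ‖x‖) := by
      rw [Real.lt_log_iff_exp_lt (by positivity)]
      exact h1
    rw [div_lt_iff₀ ha] at h2
    linarith

lemma uu_C2 (hR : 0 < R) (hN : 2 < N) : ContDiff ℝ 2 (uu N R) := by
  rw [contDiff_iff_contDiffAt]
  intro x
  by_cases hx : x = 0
  · subst hx
    have h1 : uu N R =ᶠ[𝓝 0] fun _ => φ (333 / 20) := by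
      have ho : {x : E N | ‖x‖ < R * Real.exp (-(333 / 20 / (N - 2)))} ∈ 𝓝 0 := by
        apply (isOpen_lt (by fun_prop) continuous_const).mem_nhds
        change ‖(0 : E N)‖ < _
        rw [norm_zero]
        positivity
      filter_upwards [ho] with x hx
      exact uu_near hR hN hx
    exact contDiffAt_const.congr_of_eventuallyEq h1
  · have h1 : uu N R =ᶠ[𝓝 x] fun x : E N => U (N - 2) R (‖x‖ ^ 2) := by
      filter_upwards [isOpen_ne.mem_nhds hx] with y hy
      exact uu_eq hy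
    refine ContDiffAt.congr_of_eventuallyEq ?_ h1
    have h2 : ContDiffAt ℝ 2 (fun x : E N => ‖x‖ ^ 2) x := (contDiff_norm_sq ℝ).contDiffAt
    have hs : ‖x‖ ^ 2 ≠ 0 := by
      have := norm_pos_iff.mpr hx
      positivity
    unfold U
    exact φ_smooth.contDiffAt.comp x (contDiffAt_const.mul (contDiffAt_const.sub (contDiffAt_const.mul (h2.log hs))))

lemma uu_zero (hR : 0 < R) (hN : 2 < N) {x : E N} (hx : R * Real.exp (-(1 / 100 / (N - 2))) ≤ ‖x‖) :
    uu N R x = 0 := by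
  have ha : (0:ℝ) < N - 2 := by
    have : (2:ℝ) < N := by exact_mod_cast hN
    linarith
  have hp : 0 < ‖x‖ := lt_of_lt_of_le (by positivity) hx
  have h0 : x ≠ 0 := norm_pos_iff.mp hp
  rw [uu_eq' hR h0]
  apply φ_zero
  have h1 : R / ‖x‖ ≤ Real.exp (1 / 100 / (N - 2)) := by
    rw [div_le_iff₀ hp]
    rw [Real.exp_neg] at hx
    have := Real.exp_pos (1 / 100 / ((N:ℝ) - 2))
    rw [← div_eq_mul_inv, div_le_iff₀ this] at hx
    linarith
  have h2 : Real.log (R / ‖x‖) ≤ 1 / 100 / ((N:ℝ) - 2) := by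
    rw [Real.log_le_iff_le_exp (by positivity)]
    exact h1
  rw [le_div_iff₀ ha] at h2
  linarith

lemma lap_uu (hR : 0 < R) {x : E N} (hx : x ≠ 0) :
    Δ (uu N R) x = ((N:ℝ) - 2) ^ 2 / ‖x‖ ^ 2 *
      (φ2 ((N - 2) * Real.log (R / ‖x‖)) - φ1 ((N - 2) * Real.log (R / ‖x‖))) := by
  have hp : 0 < ‖x‖ := norm_pos_iff.mpr hx
  have hs : 0 < ‖x‖ ^ 2 := by positivity
  have h1 : uu N R =ᶠ[𝓝 x] fun x : E N => U (N - 2) R (‖x‖ ^ 2) := by
    filter_upwards [isOpen_ne.mem_nhds hx] with y hy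
    exact uu_eq hy
  rw [(laplacian_congr_nhds h1).self_of_nhds]
  have h := H314.CS.LL.laplacian_comp_normSq (E := E N) (x := x)
    (U := U (N - 2) R) (U' := U1 (N - 2) R) (U'' := fun s => U2 (N - 2) R s)
    (by
      filter_upwards [Ioi_mem_nhds hs] with s hs'
      exact U_der _ _ (ne_of_gt hs'))
    (U1_der _ _ hs.ne')
  rw [h, finrank_euclideanSpace_fin]
  unfold U1 U2
  rw [arg_eq hR hx]
  field_simp
  ring

end Pool.Agent.Q175.HR
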