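import Mathlib

/-! An explicit cubic spline `φ`, zero for `τ ≤ 1/100`, constant for `τ ≥ 333/20`, with
`|φ'' - φ'| ≤ 1` and `φ ≥ 53/100 τ²` on `[4/5, 17/20]`. -/

set_option autoImplicit false

open Filter Topology Set

namespace Pool.Agent.Q175.HR

/-- powers of the positive part -/
noncomputable def P (n : ℕ) (x : ℝ) : ℝ := (max x 0) ^ n

lemma P_cont (n : ℕ) : Continuous (P n) := by unfold P; fun_prop

lemma P_neg (n : ℕ) {x : ℝ} (hx : x ≤ 0) : P (n + 1) x = 0 := by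
  unfold P; rw [max_eq_right hx]; simp

lemma P_pos (n : ℕ) {x : ℝ} (hx : 0 ≤ x) : P n x = x ^ n := by
  unfold P; rw [max_eq_left hx]

lemma P_der (n : ℕ) (x : ℝ) : HasDerivAt (P (n + 2)) (((n + 2 : ℕ) : ℝ) * P (n + 1) x) x := by
  have key : ∀ y : ℝ, y ≠ 0 → HasDerivAt (P (n + 2)) (((n + 2 : ℕ) : ℝ) * P (n + 1) y) y := by
    intro y hy
    rcases lt_or_gt_of_ne hy with h | h
    · have h1 : P (n + 2) =ᶠ[𝓝 y] fun _ => 0 := by
        filter_upwards [Iio_mem_nhds h] with z hz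
        exact P_neg (n + 1) (le_of_lt hz)
      rw [P_neg n h.le, mul_zero]
      exact (hasDerivAt_const y (0:ℝ)).congr_of_eventuallyEq h1
    · have h1 : P (n + 2) =ᶠ[𝓝 y] fun z => z ^ (n + 2) := by
        filter_upwards [Ioi_mem_nhds h] with z hz
        exact P_pos (n + 2) (le_of_lt hz)
      rw [P_pos (n + 1) h.le]
      exact (hasDerivAt_pow (n + 2) y).congr_of_eventuallyEq h1
  by_cases hx : x = 0
  · subst hx
    exact hasDerivAt_of_hasDerivAt_of_ne key (P_cont _).continuousAt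
      ((continuous_const.mul (P_cont (n + 1))).continuousAt)
  · exact key x hx

lemma P_shift (n : ℕ) (c t x : ℝ) :
    HasDerivAt (fun x => c * P (n + 2) (x - t)) (c * (((n + 2 : ℕ) : ℝ) * P (n + 1) (x - t))) x := by
  have h := (P_der n (x - t)).comp x ((hasDerivAt_id x).sub_const t)
  rw [mul_one] at h
  exact h.const_mul c

noncomputable def φ (x : ℝ) : ℝ := 25 / 6 * P 3 (x - 1 / 100) + -215 / 54 * P 3 (x - 1 / 20) +
  -58 / 54 * P 3 (x - 1 / 2) + 5078 / 5706 * P 3 (x - 4 / 5) + -2 / 1902 * P 3 (x - 333 / 20)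

noncomputable def φ1 (x : ℝ) : ℝ := 25 / 2 * P 2 (x - 1 / 100) + -215 / 18 * P 2 (x - 1 / 20) +
  -58 / 18 * P 2 (x - 1 / 2) + 5078 / 1902 * P 2 (x - 4 / 5) + -2 / 634 * P 2 (x - 333 / 20)

noncomputable def φ2 (x : ℝ) : ℝ := 25 * P 1 (x - 1 / 100) + -215 / 9 * P 1 (x - 1 / 20) +
  -58 / 9 * P 1 (x - 1 / 2) + 5078 / 951 * P 1 (x - 4 / 5) + -2 / 317 * P 1 (x - 333 / 20)

lemma φ_der (x : ℝ) : HasDerivAt φ (φ1 x) x := by
  have h := ((((P_shift 1 (25 / 6) (1 / 100) x).add (P_shift 1 (-215 / 54) (1 / 20) x)).add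
    (P_shift 1 (-58 / 54) (1 / 2) x)).add (P_shift 1 (5078 / 5706) (4 / 5) x)).add
    (P_shift 1 (-2 / 1902) (333 / 20) x)
  refine h.congr_deriv ?_
  unfold φ1
  norm_num
  ring

lemma φ1_der (x : ℝ) : HasDerivAt φ1 (φ2 x) x := by
  have h := ((((P_shift 0 (25 / 2) (1 / 100) x).add (P_shift 0 (-215 / 18) (1 / 20) x)).add
    (P_shift 0 (-58 / 18) (1 / 2) x)).add (P_shift 0 (5078 / 1902) (4 / 5) x)).add
    (P_shift 0 (-2 / 634) (333 / 20) x)
  refine h.congr_deriv ?_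
  unfold φ2
  norm_num
  ring

lemma φ2_cont : Continuous φ2 := by
  have := P_cont 1
  unfold φ2
  fun_prop

lemma φ_smooth : ContDiff ℝ 2 φ := by
  have h1 : deriv φ = φ1 := funext fun x => (φ_der x).deriv
  have h2 : deriv φ1 = φ2 := funext fun x => (φ1_der x).deriv
  have h3 : ContDiff ℝ 1 φ1 := by
    rw [contDiff_one_iff_deriv, h2]
    exact ⟨fun x => (φ1_der x).differentiableAt, φ2_cont⟩
  have h4 : ContDiff ℝ (1 + 1) φ := by
    rw [contDiff_succ_iff_deriv, h1]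
    exact ⟨fun x => (φ_der x).differentiableAt, by simp, h3⟩
  exact h4

lemma φ_zero {x : ℝ} (hx : x ≤ 1 / 100) : φ x = 0 := by
  unfold φ
  rw [P_neg 2 (by linarith), P_neg 2 (by linarith), P_neg 2 (by linarith), P_neg 2 (by linarith),
    P_neg 2 (by linarith)]
  ring

lemma φ1_zero {x : ℝ} (hx : x ≤ 1 / 100) : φ1 x = 0 := by
  unfold φ1
  rw [P_neg 1 (by linarith), P_neg 1 (by linarith), P_neg 1 (by linarith), P_neg 1 (by linarith),
    P_neg 1 (by linarith)]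
  ring

lemma φ2_zero {x : ℝ} (hx : x ≤ 1 / 100) : φ2 x = 0 := by
  unfold φ2
  rw [P_neg 0 (by linarith), P_neg 0 (by linarith), P_neg 0 (by linarith), P_neg 0 (by linarith),
    P_neg 0 (by linarith)]
  ring

lemma φ1_late {x : ℝ} (hx : 333 / 20 ≤ x) : φ1 x = 0 := by
  unfold φ1
  rw [P_pos 2 (by linarith), P_pos 2 (by linarith), P_pos 2 (by linarith), P_pos 2 (by linarith),
    P_pos 2 (by linarith)]
  ring

lemma φ2_late {x : ℝ} (hx : 333 / 20 ≤ x) : φ2 x = 0 := by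
  unfold φ2
  rw [P_pos 1 (by linarith), P_pos 1 (by linarith), P_pos 1 (by linarith), P_pos 1 (by linarith),
    P_pos 1 (by linarith)]
  ring

lemma φ_late {x : ℝ} (hx : 333 / 20 ≤ x) : φ x = φ (333 / 20) := by
  unfold φ
  rw [P_pos 3 (by linarith), P_pos 3 (by linarith), P_pos 3 (by linarith), P_pos 3 (by linarith),
    P_pos 3 (by linarith), P_pos 3 (by norm_num), P_pos 3 (by norm_num), P_pos 3 (by norm_num),
    P_pos 3 (by norm_num), P_pos 3 (by norm_num)]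
  ring

lemma w_bound (x : ℝ) : |φ2 x - φ1 x| ≤ 1 := by
  rcases le_or_gt x (1 / 100) with h | h0
  · rw [φ1_zero h, φ2_zero h]; norm_num
  rcases le_or_gt (333 / 20) x with h | h4
  · rw [φ1_late h, φ2_late h]; norm_num
  have e5 : ∀ n, P (n + 1) (x - 333 / 20) = 0 := fun n => P_neg n (by linarith)
  have e1 : ∀ n, P n (x - 1 / 100) = (x - 1 / 100) ^ n := fun n => P_pos n (by linarith)
  rcases le_or_gt x (1 / 20) with h | h1
  · have e2 : ∀ n, P (n + 1) (x - 1 / 20) = 0 := fun n => P_neg n (by linarith)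
    have e3 : ∀ n, P (n + 1) (x - 1 / 2) = 0 := fun n => P_neg n (by linarith)
    have e4 : ∀ n, P (n + 1) (x - 4 / 5) = 0 := fun n => P_neg n (by linarith)
    unfold φ1 φ2
    rw [e1, e1, e2 0, e2 1, e3 0, e3 1, e4 0, e4 1, e5 0, e5 1, abs_le]
    constructor <;> nlinarith
  have e2 : ∀ n, P n (x - 1 / 20) = (x - 1 / 20) ^ n := fun n => P_pos n (by linarith)
  rcases le_or_gt x (1 / 2) with h | h2
  · have e3 : ∀ n, P (n + 1) (x - 1 / 2) = 0 := fun n => P_neg n (by linarith)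
    have e4 : ∀ n, P (n + 1) (x - 4 / 5) = 0 := fun n => P_neg n (by linarith)
    unfold φ1 φ2
    rw [e1, e1, e2, e2, e3 0, e3 1, e4 0, e4 1, e5 0, e5 1, abs_le]
    constructor <;> nlinarith
  have e3 : ∀ n, P n (x - 1 / 2) = (x - 1 / 2) ^ n := fun n => P_pos n (by linarith)
  rcases le_or_gt x (4 / 5) with h | h3
  · have e4 : ∀ n, P (n + 1) (x - 4 / 5) = 0 := fun n => P_neg n (by linarith)
    unfold φ1 φ2
    rw [e1, e1, e2, e2, e3, e3, e4 0, e4 1, e5 0, e5 1, abs_le]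
    constructor <;> nlinarith
  have e4 : ∀ n, P n (x - 4 / 5) = (x - 4 / 5) ^ n := fun n => P_pos n (by linarith)
  unfold φ1 φ2
  rw [e1, e1, e2, e2, e3, e3, e4, e4, e5 0, e5 1, abs_le]
  constructor <;> nlinarith

lemma φ_window {x : ℝ} (h1 : 4 / 5 ≤ x) (h2 : x ≤ 17 / 20) : 53 / 100 * x ^ 2 ≤ φ x := by
  unfold φ
  rw [P_pos 3 (by linarith), P_pos 3 (by linarith), P_pos 3 (by linarith), P_pos 3 (by linarith),
    P_neg 2 (by linarith)]
  nlinarith [mul_nonneg (sub_nonneg.2 h1) (sub_nonneg.2 h2), mul_nonneg (mul_nonneg (sub_nonneg.2 h1) (sub_nonneg.2 h1)) (sub_nonneg.2 h2),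
    mul_nonneg (mul_nonneg (sub_nonneg.2 h1) (sub_nonneg.2 h1)) (sub_nonneg.2 h1)]

end Pool.Agent.Q175.HR
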